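import Pool.Agent.helper45.SGK.Spec

/-!
Row LNF of project SGK (MP_069684_lc): from the frames to the normal form.
-/

set_option autoImplicit false

namespace Pool.Agent.SGK

open Finset Pool.Agent.helper38.Neg Pool.Agent.helper55.NT
open Pool.Agent.SGC (Sg SCirc Ext Mv hw RN Solv stA stB)

private theorem LNF_rt {t : ℕ} (st : Fr t) (hst : IsFr st) (q p : Fin (t + 1)) :
    rt st q = p ↔ st p q ≠ none ∧ ∀ p' < p, st p' q = none := by
  classical
  have h : ∃ p, st p q ≠ none := ⟨q, by rw [hst.1]; simp⟩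
  unfold rt
  rw [dif_pos h, Fin.find_eq_iff]
  constructor
  · rintro ⟨h1, h2⟩
    exact ⟨h1, fun p' hp' => not_not.mp (h2 p' hp')⟩
  · rintro ⟨h1, h2⟩
    exact ⟨h1, fun p' hp' => not_not.mpr (h2 p' hp')⟩

private theorem LNF_nf {k n : ℕ} [NeZero k] (P : Finset (Wd k)) (st : Fr (tw k n)) (x : Fin n → Bool)
    (c : Cl k (tw k n)) :
    nf P st x (ps c) = true ↔ ∀ z ∈ rel P x c.1, (fun j => z j + nu st (c.1 j) + c.2 j) ∈ P := by
  have h : ∃ c' : Cl k (tw k n), ps c' = ps c := ⟨c, rfl⟩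
  have h1 : h.choose = c := ps_injective h.choose_spec
  unfold nf
  rw [dif_pos h, h1, decide_eq_true_iff]

private theorem LNF_nf0 {k n : ℕ} [NeZero k] (P : Finset (Wd k)) (st : Fr (tw k n)) (x : Fin n → Bool)
    (p : Fin n) (hp : nf P st x p = true) : ∃ c : Cl k (tw k n), ps c = p := by
  by_contra hcon
  unfold nf at hp
  rw [dif_neg hcon] at hp
  exact Bool.false_ne_true hp

private theorem LNF_mono {k n : ℕ} [NeZero k] (V : Submodule (ZMod 2) (Sg (tw k n))) {W : Type}
    (act : Act (tw k n) W) (F : W → Fn n) (m m' : ℕ) (h : Av V act F m) (hm : m ≤ m') : Av V act F m' := by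
  obtain ⟨G, i, C, emb, h1, h2, h3, h4⟩ := h
  exact ⟨G, i, C, emb, h1.trans hm, h2, h3, h4⟩

private theorem LNF_inv {t : ℕ} {W : Type} (act : Act t W) (K : Finset W) (γ : Sg t)
    (h : ∀ w ∈ K, act.f γ w ∈ K) (w : W) : w ∈ K ↔ act.f γ w ∈ K := by
  refine ⟨h w, fun hw => ?_⟩
  have := h _ hw
  rwa [act.inv] at this

/-- the base indices -/
private abbrev LNF_W0 (k n : ℕ) [NeZero k] : Type :=
  (Fin n ⊕ (Es k (tw k n) × ZMod 2)) ⊕ (Fin (tw k n + 1) × Fin (tw k n + 1) × ZMod 2)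

private theorem LNF_card0 (k n : ℕ) [NeZero k] :
    Fintype.card (LNF_W0 k n) = n + (tw k n) ^ k * (k * (k + 1)) * 2 + (tw k n + 1) * ((tw k n + 1) * 2) := by
  simp only [LNF_W0, Fintype.card_sum, Fintype.card_prod, Fintype.card_fin, Fintype.card_option, Fintype.card_pi,
    prod_const, card_univ, ZMod.card]

private theorem LNF_size (k n m : ℕ) [NeZero k] (M : ℕ) :
    m + (tw k n + 1) * (tw k n + 1) + (n + (tw k n) ^ k * (k * (k + 1)) * 2 + (tw k n + 1) * ((tw k n + 1) * 2)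
      + (tw k n + 1) * (tw k n + 1)) + (tw k n) ^ k * (2 ^ k * (tw k n + 1) ^ k) * (2 ^ M + 1) + n ≤
    m + (k + 2 + 7 + 2 * (k * (k + 1)) + 2 ^ M) * (n + 1) ^ (k + 2 + 7 + 2 * (k * (k + 1)) + 2 ^ M) := by
  set t := tw k n with ht
  have h1 : t ^ k * 2 ^ k ≤ n := tw_le k n
  have hk : k ≠ 0 := NeZero.ne k
  have h2 : t ≤ t ^ k := Nat.le_self_pow hk t
  have h3 : 1 ≤ 2 ^ k := Nat.one_le_two_pow
  have h4 : t ^ k ≤ n := le_trans (Nat.le_mul_of_pos_right _ h3) h1
  have h5 : t + 1 ≤ n + 1 := by omega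
  set N := n + 1 with hN
  have hN1 : 1 ≤ N := by omega
  have e1 : (t + 1) * (t + 1) ≤ N ^ (k + 2) := by
    calc (t + 1) * (t + 1) ≤ N * N := Nat.mul_le_mul h5 h5
      _ = N ^ 2 := by ring
      _ ≤ N ^ (k + 2) := Nat.pow_le_pow_right hN1 (by omega)
  have e2 : n ≤ N ^ (k + 2) := by
    calc n ≤ N ^ 1 := by rw [pow_one]; omega
      _ ≤ N ^ (k + 2) := Nat.pow_le_pow_right hN1 (by omega)
  have e3 : t ^ k ≤ N ^ (k + 2) := h4.trans e2
  have e4 : t ^ k * (2 ^ k * (t + 1) ^ k) ≤ N ^ (k + 2) := by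
    calc t ^ k * (2 ^ k * (t + 1) ^ k) = (t ^ k * 2 ^ k) * (t + 1) ^ k := by ring
      _ ≤ N * N ^ k := Nat.mul_le_mul (h1.trans (by omega)) (Nat.pow_le_pow_left h5 k)
      _ = N ^ (k + 1) := by ring
      _ ≤ N ^ (k + 2) := Nat.pow_le_pow_right hN1 (by omega)
  set a := k + 2 + 7 + 2 * (k * (k + 1)) + 2 ^ M with ha
  have e5 : N ^ (k + 2) ≤ N ^ a := by
    apply Nat.pow_le_pow_right hN1
    rw [ha, add_assoc, add_assoc]
    exact Nat.le_add_right _ _
  set X := N ^ (k + 2) with hX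
  have e6 : t ^ k * (k * (k + 1)) * 2 ≤ X * (k * (k + 1)) * 2 :=
    Nat.mul_le_mul_right _ (Nat.mul_le_mul_right _ e3)
  have e7 : t ^ k * (2 ^ k * (t + 1) ^ k) * (2 ^ M + 1) ≤ X * (2 ^ M + 1) := Nat.mul_le_mul_right _ e4
  have e8 : (t + 1) * ((t + 1) * 2) = ((t + 1) * (t + 1)) * 2 := by ring
  have e9 : a * X ≤ a * N ^ a := Nat.mul_le_mul_left _ e5
  refine le_trans ?_ (Nat.add_le_add_left e9 m)
  have e10 : a * X = k * X + 2 * X + 7 * X + X * (k * (k + 1)) * 2 + X * 2 ^ M := by rw [ha]; ring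
  have e11 : X * (2 ^ M + 1) = X * 2 ^ M + X := by ring
  rw [e10, e8]
  rw [e11] at e7
  have e12 : 0 ≤ k * X := Nat.zero_le _
  omega

theorem LNF (hAVL : AVL_stmt) (hAVS : AVS_stmt) (hAVR : AVR_stmt) (hFRA : FRA_stmt) (hNFI : NFI_stmt) : LNF_stmt := by
  classical
  intro k _ cr P hR hC
  set M := 2 ^ k + k * 2 + k with hM
  refine ⟨k + 2 + 7 + 2 * (k * (k + 1)) + 2 ^ M, ?_⟩
  intro n V m L hL hAv
  have hfr : ∀ x, IsFr (frs cr P x L) := fun x => (hFRA k cr P n x L hC).1
  set act0 := ((actP k n).sum (actE k (tw k n))).sum (actS (tw k n)) with hact0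
  set F0 : LNF_W0 k n → Fn n := Sum.elim (Sum.elim (fun p x => x p) (famE cr P n)) (famS cr P n L) with hF0
  have hF0S : ∀ p q β x, F0 (Sum.inr (p, q, β)) x = true ↔ frs cr P x L p q = some β := by
    intro p q β x
    simp only [hF0, Sum.elim_inr, famS, decide_eq_true_iff]
  have hF0P : ∀ p x, F0 (Sum.inl (Sum.inl p)) x = x p := by
    intro p x
    simp only [hF0, Sum.elim_inl]
  -- layer A
  set F1 : Fin ((tw k n) + 1) × Fin ((tw k n) + 1) → Fn n := fun w x => decide (∀ p' < w.1, frs cr P x L p' w.2 = none) with hF1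
  set K1 : Fin ((tw k n) + 1) × Fin ((tw k n) + 1) → Finset (LNF_W0 k n) := fun w' =>
    univ.filter (fun w => ∃ p' β, p' < w'.1 ∧ w = Sum.inr (p', w'.2, β)) with hK1
  have hA : Av V (act0.sum (Act.triv (tw k n) (Fin ((tw k n) + 1) × Fin ((tw k n) + 1)))) (Sum.elim F0 F1)
      (m + Fintype.card (Fin ((tw k n) + 1) × Fin ((tw k n) + 1))) := by
    refine hAVS k n V (LNF_W0 k n) (Fin ((tw k n) + 1) × Fin ((tw k n) + 1)) act0 (Act.triv (tw k n) _) F0 m K1 (fun _ j => decide (j = 0)) F1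
      hAv ?_ (fun γ _ w' => rfl) ?_
    · intro γ _ w w'
      apply LNF_inv act0 (K1 w') γ
      intro w hw
      simp only [hK1, mem_filter, mem_univ, true_and] at hw ⊢
      obtain ⟨p', β, h1, rfl⟩ := hw
      exact ⟨p', β + gh γ p' + gh γ w'.2, h1, rfl⟩
    · intro w' x
      rw [Bool.eq_iff_iff]
      simp only [hF1, decide_eq_true_iff]
      rw [card_eq_zero, filter_eq_empty_iff]
      constructor
      · intro h w hw
        simp only [hK1, mem_filter, mem_univ, true_and] at hw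
        obtain ⟨p', β, h1, rfl⟩ := hw
        rw [hF0S, h p' h1]
        exact fun h2 => Option.some_ne_none _ h2.symm
      · intro h p' hp'
        rw [Option.eq_none_iff_forall_ne_some]
        intro β hβ
        have h1 : (Sum.inr (p', w'.2, β) : LNF_W0 k n) ∈ K1 w' := by
          simp only [hK1, mem_filter, mem_univ, true_and]
          exact ⟨p', β, hp', rfl⟩
        exact h h1 ((hF0S _ _ _ _).mpr hβ)
  -- layer B
  set F2 : (Fin k → Fin (tw k n)) × Wd k × (Fin k → Fin ((tw k n) + 1)) → Fn n := fun w x =>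
    decide ((∀ j, rt (frs cr P x L) (w.1 j).succ = w.2.2 j) ∧ nf P (frs cr P x L) x (ps (w.1, w.2.1)) = true) with hF2
  set K2 : (Fin k → Fin (tw k n)) × Wd k × (Fin k → Fin ((tw k n) + 1)) → Finset (LNF_W0 k n ⊕ (Fin ((tw k n) + 1) × Fin ((tw k n) + 1))) := fun w =>
    (univ.image (fun a : Wd k => Sum.inl (Sum.inl (Sum.inl (ps (w.1, a))))) ∪
    univ.image (fun jb : Fin k × ZMod 2 => Sum.inl (Sum.inr (w.2.2 jb.1, (w.1 jb.1).succ, jb.2)))) ∪
    univ.image (fun j : Fin k => Sum.inr (w.2.2 j, (w.1 j).succ)) with hK2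
  have hB := hAVL k n V (LNF_W0 k n ⊕ (Fin ((tw k n) + 1) × Fin ((tw k n) + 1))) ((Fin k → Fin (tw k n)) × Wd k × (Fin k → Fin ((tw k n) + 1)))
    (act0.sum (Act.triv (tw k n) (Fin ((tw k n) + 1) × Fin ((tw k n) + 1)))) (Act.triv (tw k n) _) (Sum.elim F0 F1) _ M K2 F2 hA
    (by
      intro w
      have c1 : (univ.image (fun a : Wd k => (Sum.inl (Sum.inl (Sum.inl (ps (w.1, a)))) :
          LNF_W0 k n ⊕ (Fin ((tw k n) + 1) × Fin ((tw k n) + 1))))).card ≤ 2 ^ k := by
        refine card_image_le.trans ?_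
        rw [card_univ]
        simp
      have c2 : (univ.image (fun jb : Fin k × ZMod 2 => (Sum.inl (Sum.inr (w.2.2 jb.1, (w.1 jb.1).succ, jb.2)) :
          LNF_W0 k n ⊕ (Fin ((tw k n) + 1) × Fin ((tw k n) + 1))))).card ≤ k * 2 := by
        refine card_image_le.trans ?_
        rw [card_univ]
        simp
      have c3 : (univ.image (fun j : Fin k => (Sum.inr (w.2.2 j, (w.1 j).succ) :
          LNF_W0 k n ⊕ (Fin ((tw k n) + 1) × Fin ((tw k n) + 1))))).card ≤ k := by
        refine card_image_le.trans ?_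
        rw [card_univ]
        simp
      simp only [hK2]
      refine (card_union_le _ _).trans (Nat.add_le_add ((card_union_le _ _).trans (Nat.add_le_add c1 c2)) c3))
    (by
      intro γ _ w w'
      apply LNF_inv _ (K2 w') γ
      intro w hw
      simp only [hK2, mem_union, mem_image, mem_univ, true_and] at hw ⊢
      rcases hw with (⟨a, rfl⟩ | ⟨jb, rfl⟩) | ⟨j, rfl⟩
      · refine Or.inl (Or.inl ⟨fun j => a j + γ (w'.1 j), ?_⟩)
        have := gl_ps γ (w'.1, a)
        exact congrArg (fun z => Sum.inl (Sum.inl (Sum.inl z))) this.symm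
      · exact Or.inl (Or.inr ⟨(jb.1, jb.2 + gh γ (w'.2.2 jb.1) + gh γ (w'.1 jb.1).succ), rfl⟩)
      · exact Or.inr ⟨j, rfl⟩)
    (by
      intro γ _ w x
      obtain ⟨h1, h2⟩ := hNFI k cr P n x L γ hR hC hL
      simp only [hF2, Act.triv]
      rw [h2]
      simp only [h1])
    (by
      intro w x y hxy
      have g1 : ∀ a : Wd k, x (ps (w.1, a)) = y (ps (w.1, a)) := by
        intro a
        have := hxy (Sum.inl (Sum.inl (Sum.inl (ps (w.1, a))))) (by
          simp only [hK2, mem_union, mem_image, mem_univ, true_and]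
          exact Or.inl (Or.inl ⟨a, rfl⟩))
        simp only [Sum.elim_inl] at this
        rwa [hF0P, hF0P] at this
      have g2 : ∀ (j : Fin k) (β : ZMod 2), frs cr P x L (w.2.2 j) (w.1 j).succ = some β ↔
          frs cr P y L (w.2.2 j) (w.1 j).succ = some β := by
        intro j β
        have := hxy (Sum.inl (Sum.inr (w.2.2 j, (w.1 j).succ, β))) (by
          simp only [hK2, mem_union, mem_image, mem_univ, true_and]
          exact Or.inl (Or.inr ⟨(j, β), rfl⟩))
        simp only [Sum.elim_inl] at this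
        rw [← hF0S, ← hF0S, this]
      have g3 : ∀ j : Fin k, frs cr P x L (w.2.2 j) (w.1 j).succ = frs cr P y L (w.2.2 j) (w.1 j).succ := by
        intro j
        apply Option.ext
        intro β
        exact g2 j β
      have g4 : ∀ j : Fin k, (∀ p' < w.2.2 j, frs cr P x L p' (w.1 j).succ = none) ↔
          (∀ p' < w.2.2 j, frs cr P y L p' (w.1 j).succ = none) := by
        intro j
        have := hxy (Sum.inr (w.2.2 j, (w.1 j).succ)) (by
          simp only [hK2, mem_union, mem_image, mem_univ, true_and]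
          exact Or.inr ⟨j, rfl⟩)
        simp only [Sum.elim_inr, hF1] at this
        rwa [decide_eq_decide] at this
      have g5 : ∀ j : Fin k, rt (frs cr P x L) (w.1 j).succ = w.2.2 j ↔ rt (frs cr P y L) (w.1 j).succ = w.2.2 j := by
        intro j
        rw [LNF_rt _ (hfr x), LNF_rt _ (hfr y), g3, g4]
      have g6 : sg x w.1 = sg y w.1 := by
        unfold sg
        ext a
        simp only [mem_filter, mem_univ, true_and]
        rw [g1]
      have g7 : rel P x w.1 = rel P y w.1 := by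
        unfold rel; rw [g6]
      simp only [hF2]
      rw [decide_eq_decide]
      by_cases hr : ∀ j, rt (frs cr P x L) (w.1 j).succ = w.2.2 j
      · have hr' : ∀ j, rt (frs cr P y L) (w.1 j).succ = w.2.2 j := fun j => (g5 j).mp (hr j)
        have hnu : ∀ j, nu (frs cr P x L) (w.1 j) = nu (frs cr P y L) (w.1 j) := by
          intro j
          unfold nu
          rw [hr j, hr' j, g3]
        rw [LNF_nf, LNF_nf]
        simp only [g7, hnu, hr, hr']
      · have hr' : ¬ ∀ j, rt (frs cr P y L) (w.1 j).succ = w.2.2 j := fun hc => hr fun j => (g5 j).mpr (hc j)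
        constructor
        · exact fun hc => absurd hc.1 hr
        · exact fun hc => absurd hc.1 hr')
  -- layer C
  set act2 := (act0.sum (Act.triv (tw k n) (Fin ((tw k n) + 1) × Fin ((tw k n) + 1)))).sum
    (Act.triv (tw k n) ((Fin k → Fin (tw k n)) × Wd k × (Fin k → Fin ((tw k n) + 1)))) with hact2
  set F12 : (LNF_W0 k n ⊕ (Fin ((tw k n) + 1) × Fin ((tw k n) + 1))) ⊕ ((Fin k → Fin (tw k n)) × Wd k × (Fin k → Fin ((tw k n) + 1))) → Fn n :=
    Sum.elim (Sum.elim F0 F1) F2 with hF12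
  set K3 : Fin n → Finset ((LNF_W0 k n ⊕ (Fin ((tw k n) + 1) × Fin ((tw k n) + 1))) ⊕
      ((Fin k → Fin (tw k n)) × Wd k × (Fin k → Fin ((tw k n) + 1)))) := fun p =>
    univ.filter (fun w => ∃ v : (Fin k → Fin (tw k n)) × Wd k × (Fin k → Fin ((tw k n) + 1)), ps (v.1, v.2.1) = p ∧ w = Sum.inr v)
    with hK3
  have hCC := hAVS k n V _ (Fin n) act2 (Act.triv (tw k n) _) F12 _ K3 (fun _ j => decide (1 ≤ j))
    (fun p x => nf P (frs cr P x L) x p) hB
    (by
      intro γ _ w p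
      apply LNF_inv _ (K3 p) γ
      intro w hw
      simp only [hK3, mem_filter, mem_univ, true_and] at hw ⊢
      obtain ⟨v, h1, rfl⟩ := hw
      exact ⟨v, h1, rfl⟩)
    (fun γ _ w' => rfl)
    (by
      intro p x
      rw [Bool.eq_iff_iff]
      simp only [decide_eq_true_iff]
      rw [Nat.one_le_iff_ne_zero, ← Nat.pos_iff_ne_zero, card_pos]
      constructor
      · intro hp
        obtain ⟨c, rfl⟩ := LNF_nf0 P _ x p hp
        refine ⟨Sum.inr (c.1, c.2, fun j => rt (frs cr P x L) (c.1 j).succ), ?_⟩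
        rw [mem_filter]
        refine ⟨?_, ?_⟩
        · simp only [hK3, mem_filter, mem_univ, true_and]
          exact ⟨_, rfl, rfl⟩
        · simp only [hF12, Sum.elim_inr, hF2, decide_eq_true_iff]
          exact ⟨fun j => trivial, hp⟩
      · rintro ⟨w, hw⟩
        rw [mem_filter] at hw
        obtain ⟨hw1, hw2⟩ := hw
        simp only [hK3, mem_filter, mem_univ, true_and] at hw1
        obtain ⟨v, h1, rfl⟩ := hw1
        simp only [hF12, Sum.elim_inr, hF2, decide_eq_true_iff] at hw2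
        rw [← h1]
        exact hw2.2)
  refine ⟨_, act2.sum (Act.triv (tw k n) (Fin n)), Sum.elim F12 (fun p x => nf P (frs cr P x L) x p), Sum.inr, ?_,
    fun γ _ p => rfl, fun p x => rfl⟩
  refine LNF_mono V _ _ _ _ hCC ?_
  have hs := LNF_size k n m M
  rw [Fintype.card_sum (α := LNF_W0 k n), LNF_card0]
  simp only [Fintype.card_prod, Fintype.card_fin, Fintype.card_pi, prod_const, card_univ, ZMod.card]
  exact hs

end Pool.Agent.SGK
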